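import Pool.Agent.Helper87.Irr.GoalsT

/-!
MP_033e98_co, cluster route, packet T11: stars in the large regime.
-/

namespace Irr87

open Irr37

theorem chS_lt77 {p S : ℕ} {Ds : List ℕ} {h : ℕ} (hc : ChS p S Ds h) : ∀ D ∈ Ds, D < p := by
  obtain ⟨D, l, rfl, -, -, h3, h4⟩ := hc
  intro D' hD'
  rcases List.mem_cons.1 hD' with rfl | hD'
  · exact h3
  · exact h4.le D' hD'

theorem runs_lt77 {p : ℕ} {ns : List (ℕ × ℕ)} {Dss : List (List ℕ)} {hs : List ℕ}
    (hr : Runs p ns Dss hs) : ∀ D ∈ Dss.flatten, D < p := by
  induction ns generalizing Dss hs with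
  | nil =>
    cases Dss with
    | nil => simp
    | cons _ _ => cases hs <;> exact hr.elim
  | cons e ns ih =>
    cases Dss with
    | nil => simp
    | cons Ds Dss =>
      cases hs with
      | nil => exact hr.elim
      | cons h hs =>
        obtain ⟨-, h2, -, h4⟩ := hr
        intro D hD
        rw [List.flatten_cons, List.mem_append] at hD
        rcases hD with hD | hD
        · exact chS_lt77 h2 D hD
        · exact ih h4 D hD

theorem wts_nodup77 {p : ℕ} {l : List ℕ} (h : l.Nodup) (hl : ∀ D ∈ l, D < p) : (wts p l).Nodup := by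
  unfold wts
  rw [Multiset.coe_nodup]
  refine (List.nodup_map_iff_inj_on h).2 ?_
  intro a ha b hb hab
  have h1 := hl a ha
  have h2 := hl b hb
  omega

theorem in_le77 {p z : ℕ} {V : Finset ℕ} (h : In p V z) : z ≤ V.card :=
  (h z le_rfl).trans (Finset.card_filter_le _ _)

theorem tStarL (hSt : StarL) : TStarL := by
  intro p s z R n₀ l ls g hps hsit hadm V fill hV hcard hfill hrange hnod
  obtain ⟨hzp, hz⟩ := hadm
  have hp : 1 ≤ p := by omega
  have hdeg := hsit.deg
  simp only [if_true] at hdeg
  have hs1 : (app (legsF ls) g).size = (ls.map Prod.fst).sum + ls.length + g.size := by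
    rw [app_size, legsF_size]
  have hs2 : (app (botsF ls) g).size = ls.length + g.size := by
    rw [app_size, botsF_size]
  have hl1 : (app (legsF ls) g).leaves = (ls.map Prod.snd).sum + g.leaves := by
    rw [app_leaves, legsF_leaves]
  have hl2 : (app (botsF ls) g).leaves = (ls.map Prod.snd).sum + g.leaves := by
    rw [app_leaves, botsF_leaves]
  rw [hs1, hs2] at hcard
  rw [hl1, hl2, Multiset.card_zero] at hfill
  have hcf : Multiset.card fill = l := by omega
  have hzV := in_le77 hV
  rcases Nat.eq_zero_or_pos n₀ with hn | hn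
  · -- no run above
    subst hn
    have hne : ls ≠ [] := by
      rcases hsit.ne with h | h
      · exact h
      · omega
    have hlen : 1 ≤ ls.length := List.length_pos_iff.2 hne
    have hmem : ∀ n ∈ ls.map Prod.fst, 1 ≤ n := by
      intro n hn
      obtain ⟨e, he, rfl⟩ := List.mem_map.1 hn
      exact (hsit.pos e he).1
    have hsum : 1 ≤ (ls.map Prod.fst).sum := by
      cases ls with
      | nil => exact absurd rfl hne
      | cons e ls =>
        have := hmem e.1 (by simp)
        simp only [List.map_cons, List.sum_cons]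
        omega
    obtain ⟨Dss, hs, w, hr, hnd, hD, hw, hpw, hwV⟩ := hSt p (fill.sum + p * g.width + (p - z)) z 1 V
      (ls.map Prod.fst) (by simpa using hne) hmem (by omega) (by omega) (by
        rw [List.length_map]
        obtain ⟨k, hk⟩ : ∃ k, ls.length = k + 1 := ⟨ls.length - 1, by omega⟩
        rw [hk]
        rcases Nat.eq_zero_or_pos k with rfl | hk0
        · have h1 : p * 1 ≤ p * g.width := Nat.mul_le_mul le_rfl (by omega)
          simp only [Nat.zero_add, Nat.sub_self, Nat.zero_sub, Nat.zero_mul]
          omega
        · obtain ⟨j, rfl⟩ : ∃ j, k = j + 1 := ⟨k - 1, by omega⟩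
          have e1 : j + 1 + 1 - 1 - 1 = j := by omega
          rw [e1]
          have e2 : p * (j + 1 + 1) = j * p + 2 * p := by ring
          rw [e2]
          omega)
    obtain ⟨x, hx, hx'⟩ := PS.legsF hp hr
    have hx2 := hx.app (PS.cutAll p g)
    rw [opn, List.length_map, List.length_map] at hw
    refine ⟨fill, x + p * g.width, wts p Dss.flatten + 0, 0 + 0, [], z, w, hcf, hx2, by simp, rfl,
      rfl, hzp, ?_, ?_, ?_⟩
    · simp only [if_true]
      omega
    · simp only [wts_nil, add_zero]
      rw [Multiset.nodup_cons]
      refine ⟨?_, wts_nodup77 hnd (runs_lt77 hr)⟩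
      intro hmemw
      obtain ⟨D, hD1, hD2⟩ := mem_wts.1 hmemw
      exact (hD D hD1).2 hD2
    · intro u hu
      simp only [wts_nil, add_zero] at hu
      rcases Multiset.mem_cons.1 hu with rfl | hu
      · exact ⟨hpw, hwV⟩
      · obtain ⟨D, hD1, rfl⟩ := mem_wts.1 hu
        have := runs_lt77 hr D hD1
        exact ⟨by omega, (hD D hD1).1⟩
  · -- a run above
    have hz0 : z = 0 := by
      rcases hz with h | h
      · exact h
      · omega
    subst hz0
    have hmem : ∀ n ∈ n₀ :: ls.map Prod.fst, 1 ≤ n := by
      intro n hn'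
      rcases List.mem_cons.1 hn' with rfl | hn'
      · exact hn
      · obtain ⟨e, he, rfl⟩ := List.mem_map.1 hn'
        exact (hsit.pos e he).1
    obtain ⟨Dss, hs, w, hr, hnd, hD, hw, hpw, hwV⟩ := hSt p (fill.sum + p * g.width) 0 2 V
      (n₀ :: ls.map Prod.fst) (by simp) hmem (by simp only [List.sum_cons]; omega)
      (by simp only [List.sum_cons]; omega) (by
        rw [List.length_cons, List.length_map]
        have e0 : ls.length + 1 - 1 - 2 = ls.length - 2 := by omega
        rw [e0]
        rcases Nat.lt_or_ge ls.length 2 with h2 | h2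
        · have e1 : ls.length - 2 = 0 := by omega
          rw [e1]
          have h1 : p * 3 ≤ p * (g.width + (ls.length + 1)) := Nat.mul_le_mul le_rfl (by omega)
          rw [Nat.mul_add] at h1
          omega
        · obtain ⟨j, hj⟩ : ∃ j, ls.length = j + 2 := ⟨ls.length - 2, by omega⟩
          rw [hj]
          have e1 : j + 2 - 2 = j := by omega
          rw [e1]
          have e2 : p * (j + 2 + 1) = j * p + 3 * p := by ring
          rw [e2]
          omega)
    rw [opn, List.map_cons] at hr hw
    cases Dss with
    | nil => exact hr.elim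
    | cons Ds Dss =>
      cases hs with
      | nil => exact hr.elim
      | cons h hs =>
        have hlt := runs_lt77 hr
        obtain ⟨h1, h2, h3, h4⟩ := hr
        obtain ⟨x, hx, hx'⟩ := PS.legsF (ls := ls) hp h4
        have hx2 := hx.app (PS.cutAll p g)
        rw [List.length_cons, List.length_map, List.length_map, Nat.mul_add, Nat.mul_one,
          List.sum_cons] at hw
        rw [List.flatten_cons] at hnd hD hlt
        refine ⟨fill, x + p * g.width, wts p Dss.flatten + 0, 0 + 0, Ds, h, w, hcf, hx2, by simp, h1,
          ChS_self h2, h3, ?_, ?_, ?_⟩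
        · simp only [if_true]
          omega
        · have e : wts p Dss.flatten + 0 + wts p Ds = wts p (Ds ++ Dss.flatten) := by
            rw [wts_append, add_zero, add_comm]
          rw [e, Multiset.nodup_cons]
          refine ⟨?_, wts_nodup77 hnd hlt⟩
          intro hmemw
          obtain ⟨D, hD1, hD2⟩ := mem_wts.1 hmemw
          exact (hD D hD1).2 hD2
        · have e : wts p Dss.flatten + 0 + wts p Ds = wts p (Ds ++ Dss.flatten) := by
            rw [wts_append, add_zero, add_comm]
          rw [e]
          intro u hu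
          rcases Multiset.mem_cons.1 hu with rfl | hu
          · exact ⟨hpw, hwV⟩
          · obtain ⟨D, hD1, rfl⟩ := mem_wts.1 hu
            have := hlt D hD1
            exact ⟨by omega, (hD D hD1).1⟩

end Irr87
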